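import Pool.Agent.helper34.NTA.Spec

set_option autoImplicit false

/-!
# Project NTA, row GEN: the genus
-/

namespace Pool.Agent.NTA

open Equiv

theorem GEN_pow {H : Type} [Group H] {s : ZMod 10 → H} {sg : H →* ℤˣ}
    {σ : Perm (II H × Bool)} (hσ : Rot s sg σ) (h : H) (c : ZMod 10) (m : ℕ) :
    (σ ^ m) (Sum.inl (h, c), false) =
      (Sum.inl (h, if sg h = 1 then c + m else c - m), false) := by
  induction m with
  | zero => simp
  | succ m ih =>
    rw [pow_succ', Perm.mul_apply, ih, hσ.big]
    split_ifs with h1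
    · push_cast
      rw [add_assoc]
    · push_cast
      rw [sub_sub]

theorem GEN_two {H : Type} [Group H] {s : ZMod 10 → H} {sg : H →* ℤˣ} (hG : Grp H s sg)
    {σ : Perm (II H × Bool)} (hσ : Rot s sg σ) (d : II H × Bool)
    (hd : ∀ h c, d ≠ (Sum.inl (h, c), false)) : (σ ^ 2) d = d := by
  rw [pow_two, Perm.mul_apply]
  obtain ⟨(⟨h, c⟩ | ⟨h, c⟩), b⟩ := d
  · cases b
    · exact absurd rfl (hd h c)
    · by_cases hc : KL c
      · rw [hσ.edK h c hc, hσ.edY]
      · rw [hσ.edR h c hc, hσ.edR _ c hc, mul_s_mul_s hG]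
  · cases b
    · rw [hσ.sml, hσ.sml, mul_s_mul_s hG]
    · rw [hσ.edY, hσ.edK h c.1 c.2]

/-- the periods of `σ` -/
def GEN_L (H : Type) (d : II H × Bool) : ℕ :=
  Sum.elim (fun _ => if d.2 = false then 10 else 2) (fun _ => 2) d.1

theorem GEN_card : Fintype.card {c : ZMod 10 // KL c} = 5 := by decide

theorem GEN (hCYL : CYL_stmt) (hROT : ROT_stmt) (hFAC : FAC_stmt) (hCON : CON_stmt)
    (hDIV : DIV_stmt) : GEN_stmt := by
  intro H _ _ s sg hG
  obtain ⟨σ, hσ, hsc⟩ := hROT H s sg hG
  have := Fintype.ofFinite H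
  refine ⟨σ, hsc, ?_⟩
  change Fits σ (oppI H) (1 + 11 * (Nat.card H / 8))
  unfold Fits
  have hcon := hCON H s sg hG σ hσ
  obtain ⟨k, hk⟩ := hDIV H s sg hG
  have hn : Fintype.card H = 8 * k := by rw [← Nat.card_eq_fintype_card, hk]
  have hD : Nat.card (II H × Bool) = 240 * k := by
    rw [Nat.card_eq_fintype_card, Fintype.card_prod, Fintype.card_sum, Fintype.card_prod,
      Fintype.card_prod, GEN_card, hn, Fintype.card_bool, ZMod.card]
    ring
  have h1 : (88 * k : ℚ) ≤ (cyc σ : ℚ) := by
    have h2 := hCYL (II H × Bool) σ (GEN_L H) ?_ ?_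
    · refine le_trans (le_of_eq ?_) h2
      rw [Fintype.sum_prod_type, Fintype.sum_sum_type]
      simp only [Fintype.sum_bool, GEN_L, Sum.elim_inl, Sum.elim_inr]
      have hn' : ∀ inst : Fintype H, ((@Fintype.card H inst : ℕ) : ℚ) = 8 * k := by
        intro inst
        rw [← @Nat.card_eq_fintype_card H inst, hk]
        push_cast
        ring
      simp only [Finset.sum_const, Finset.card_univ, Fintype.card_prod, GEN_card,
        nsmul_eq_mul]
      push_cast
      norm_num
      rw [hn']
      ring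
    · rintro ⟨x | x, b⟩
      · simp only [GEN_L, Sum.elim_inl]
        split_ifs <;> norm_num
      · simp only [GEN_L, Sum.elim_inr]
        norm_num
    · intro d
      by_cases hd : ∃ h c, d = (Sum.inl (h, c), false)
      · obtain ⟨h, c, rfl⟩ := hd
        have : GEN_L H (Sum.inl (h, c), false) = 10 := by simp [GEN_L]
        rw [this, GEN_pow hσ]
        have h10 : ((10 : ℕ) : ZMod 10) = 0 := by decide
        rw [h10]
        simp
      · push Not at hd
        have : GEN_L H d = 2 := by
          obtain ⟨x | x, b⟩ := d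
          · cases b
            · exact absurd rfl (hd x.1 x.2)
            · simp [GEN_L]
          · simp [GEN_L]
        rw [this]
        exact GEN_two hG hσ d hd
  have h3 : (10 * k : ℚ) ≤ (cyc (oppI H * σ) : ℚ) := by
    have h4 := hCYL (II H × Bool) (oppI H * σ) (fun _ => 24) (fun _ => by norm_num)
      (fun d => hFAC H s sg hG σ hσ d)
    refine le_trans (le_of_eq ?_) h4
    rw [Finset.sum_const, Finset.card_univ, ← Nat.card_eq_fintype_card, hD, nsmul_eq_mul]
    push_cast
    ring
  have h5 : 88 * k ≤ cyc σ := by exact_mod_cast h1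
  have h6 : 10 * k ≤ cyc (oppI H * σ) := by exact_mod_cast h3
  rw [hD, hk]
  have h7 : 8 * k / 8 = k := by omega
  rw [h7]
  omega

end Pool.Agent.NTA
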